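import Mathlib
import Pool.Agent.Results.MP_a966df_ag.HomMCMNotFree

/-! MP_a966df_ag, Q1: over one ring there are counterexamples of every positive rank. -/

set_option autoImplicit false

open RingTheory.Sequence IsLocalRing Pool.Agent.TH215.CI TensorProduct

namespace Pool.Agent.Results.MP_a966df_ag.AllRanks

open HomMCMNotFree (LocFreeOfRank IsMCM IsCounterexample)

/-- `N` is a counterexample of rank `n` over `R`: a non-free reflexive module, locally free of
constant rank `n` on the punctured spectrum, whose class in the reduced Grothendieck group with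
rational coefficients is zero (in fact `[N] = n [R]` in the Grothendieck group), and such that
`Hom(N, N)` is maximal Cohen–Macaulay (in fact isomorphic to `R ^ (n ^ 2)`). -/
structure IsCounterexampleOfRank (R : Type) [CommRing R] [IsLocalRing R] (n : ℕ) (N : Type)
    [AddCommGroup N] [Module R N] [Module.Finite R N] : Prop where
  reflexive : Module.IsReflexive R N
  locFree : LocFreeOfRank R N n
  cls : gCls R N = n • gCls R R
  clsRedQ : gRedQ R N = 0
  hom : Nonempty ((N →ₗ[R] N) ≃ₗ[R] (Fin n → Fin n → R))
  homMCM : IsMCM R (N →ₗ[R] N)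
  not_free : ¬ Module.Free R N

section
variable {R : Type} [CommRing R]

lemma gRedQ_zero {B : Type} [AddCommGroup B] [Module R B] [Module.Finite R B] (n : ℕ)
    (h : gCls R B = n • gCls R R) : gRedQ R B = 0 := by
  unfold gRedQ
  rw [h, map_nsmul]
  have : toGRed R (gCls R R) = 0 :=
    (QuotientAddGroup.eq_zero_iff _).2 (AddSubgroup.mem_zmultiples _)
  rw [this, smul_zero, TensorProduct.tmul_zero]

lemma refl_pi (N : Type) [AddCommGroup N] [Module R N] [Module.IsReflexive R N] (n : ℕ) :
    Module.IsReflexive R (Fin n → N) := by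
  induction n with
  | zero => infer_instance
  | succ n ih => exact Module.equiv (Fin.consLinearEquiv R (fun _ : Fin (n + 1) => N))

lemma cls_pi (N : Type) [AddCommGroup N] [Module R N] [Module.Finite R N] (n : ℕ) :
    gCls R (Fin n → N) = n • gCls R N := by
  induction n with
  | zero => rw [gCls_zero, zero_smul]
  | succ n ih =>
    rw [← gCls_equiv (Fin.consLinearEquiv R (fun _ : Fin (n + 1) => N)),
      gCls_add (LinearMap.inl R N (Fin n → N)) (LinearMap.snd R N (Fin n → N))
        LinearMap.inl_injective LinearMap.snd_surjective Function.Exact.inl_snd, ih, add_smul,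
      one_smul, add_comm]

lemma loc_pi [IsLocalRing R] (N : Type) [AddCommGroup N] [Module R N]
    (h : LocFreeOfRank R N 1) (n : ℕ) : LocFreeOfRank R (Fin n → N) n := by
  intro p _ hp
  obtain ⟨e⟩ := h p hp
  let f : (Fin n → N) →ₗ[R] (Fin n → LocalizedModule p.primeCompl N) :=
    LinearMap.pi fun i : Fin n =>
      (LocalizedModule.mkLinearMap p.primeCompl N) ∘ₗ LinearMap.proj i
  have hl : IsLocalizedModule p.primeCompl f :=
    IsLocalizedModule.pi p.primeCompl fun _ : Fin n => LocalizedModule.mkLinearMap p.primeCompl N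
  let e1 : LocalizedModule p.primeCompl (Fin n → N) ≃ₗ[R]
      (Fin n → LocalizedModule p.primeCompl N) := IsLocalizedModule.iso p.primeCompl f
  let e2 : LocalizedModule p.primeCompl (Fin n → N) ≃ₗ[Localization.AtPrime p]
      (Fin n → LocalizedModule p.primeCompl N) :=
    e1.extendScalarsOfIsLocalization p.primeCompl (Localization.AtPrime p)
  exact ⟨e2.trans (LinearEquiv.piCongrRight fun _ => e.trans (LinearEquiv.funUnique (Fin 1) _ _))⟩

/-- Maps into a power. -/
def homPi (M N : Type) [AddCommGroup M] [Module R M] [AddCommGroup N] [Module R N] (n : ℕ) :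
    (M →ₗ[R] (Fin n → N)) ≃ₗ[R] (Fin n → (M →ₗ[R] N)) where
  toFun f j := (LinearMap.proj j) ∘ₗ f
  map_add' _ _ := rfl
  map_smul' _ _ := rfl
  invFun g := LinearMap.pi g
  left_inv _ := rfl
  right_inv _ := rfl

/-- Endomorphisms of a power. -/
noncomputable def endPi (N : Type) [AddCommGroup N] [Module R N] (n : ℕ)
    (e : (N →ₗ[R] N) ≃ₗ[R] R) :
    ((Fin n → N) →ₗ[R] (Fin n → N)) ≃ₗ[R] (Fin n → Fin n → R) :=
  (LinearMap.lsum R (fun _ : Fin n => N) R).symm.trans
    (LinearEquiv.piCongrRight fun _ => (homPi N N n).trans (LinearEquiv.piCongrRight fun _ => e))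

lemma mcm_pi [IsLocalRing R] (n : ℕ) (hn : 0 < n) (M : Type) [AddCommGroup M] [Module R M]
    (e : M ≃ₗ[R] (Fin n → Fin n → R)) (rs : List R) (h : IsWeaklyRegular R rs)
    (hm : ∀ r ∈ rs, r ∈ maximalIdeal R)
    (hl : ((rs.length : ℕ) : WithBot ℕ∞) = ringKrullDim R) : IsMCM R M := by
  have h1 : IsWeaklyRegular ((Fin n → Fin n → R) ⊗[R] R) rs := h.isWeaklyRegular_lTensor
  have h2 : IsWeaklyRegular M rs :=
    (((TensorProduct.rid R (Fin n → Fin n → R)).trans e.symm).isWeaklyRegular_congr rs).1 h1
  haveI : Nonempty (Fin n) := ⟨⟨0, hn⟩⟩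
  haveI : Nontrivial M := e.toEquiv.nontrivial
  haveI : Module.Finite R M := Module.Finite.equiv e.symm
  exact ⟨inferInstance, rs, hm, IsRegular.of_isWeaklyRegular_of_mem_maximalIdeal M hm h2, hl⟩

lemma not_free_pi [IsLocalRing R] (N : Type) [AddCommGroup N] [Module R N] [Module.Finite R N]
    (n : ℕ) (hn : 0 < n) (h : ¬ Module.Free R N) : ¬ Module.Free R (Fin n → N) := by
  intro hf
  apply h
  haveI : Module.Projective R N := by
    refine Module.Projective.of_split (P := N) (M := Fin n → N)
      (LinearMap.single R (fun _ => N) (⟨0, hn⟩ : Fin n)) (LinearMap.proj (⟨0, hn⟩ : Fin n)) ?_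
    ext x
    simp
  exact Module.free_of_flat_of_isLocalRing

lemma pow_counterexample [IsLocalRing R] (N : Type) [AddCommGroup N] [Module R N]
    [Module.Finite R N] (h : IsCounterexample R N) (n : ℕ) (hn : 0 < n) :
    IsCounterexampleOfRank R n (Fin n → N) := by
  obtain ⟨e⟩ := h.hom
  obtain ⟨_, rs, hm, hr, hl⟩ := h.homMCM
  haveI := h.reflexive
  have hc : gCls R (Fin n → N) = n • gCls R R := by
    rw [cls_pi, h.cls]
  exact ⟨refl_pi N n, loc_pi N h.locFree n, hc, gRedQ_zero n hc, ⟨endPi N n e⟩,
    mcm_pi n hn _ (endPi N n e) rs ((e.isRegular_congr rs).1 hr).1 hm hl,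
    not_free_pi N n hn h.not_free⟩

end

/-- For every field `k` there is a complete intersection local ring `R` of dimension three with
coefficient field `k` such that for every `n ≥ 1` there is a finitely generated non-free reflexive
`R`-module `N`, locally free of rank `n` on the punctured spectrum, with `[N] = n [R]` in the
Grothendieck group `G(R)`, for which `Hom(N, N)` is isomorphic to `R ^ (n ^ 2)`, hence maximal
Cohen–Macaulay. -/
theorem result (k : Type) [Field k] :
    ∃ (R : Type) (_ : CommRing R) (_ : IsLocalRing R) (_ : IsNoetherianRing R) (f : k →+* R),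
      Function.Bijective ((residue R).comp f) ∧ IsLocalCI R ∧ ringKrullDim R = 3 ∧
      ∀ n : ℕ, 0 < n →
        ∃ (N : Type) (_ : AddCommGroup N) (_ : Module R N) (_ : Module.Finite R N),
          IsCounterexampleOfRank R n N := by
  obtain ⟨R, _, _, _, f, hf, hci, hd, N, _, _, _, hN⟩ := HomMCMNotFree.result k
  exact ⟨R, inferInstance, inferInstance, inferInstance, f, hf, hci, hd, fun n hn =>
    ⟨Fin n → N, inferInstance, inferInstance, inferInstance, pow_counterexample N hN n hn⟩⟩

end Pool.Agent.Results.MP_a966df_ag.AllRanks
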